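import Pool.Agent.Helper28.T3.StA

set_option autoImplicit false

open scoped NumberField

namespace Pool.Agent.Helper55.T3

open Pool.Agent.Helper28.T3

private theorem jac_trichotomy (a : ℤ) (D : ℕ) : jacobiSym a D = 0 ∨ jacobiSym a D = 1 ∨ jacobiSym a D = -1 :=
  jacobiSym.trichotomy a D

theorem hCNF (hDSC : StDSC) (hPLC : StPLC) (hTOR : StTOR) (hIDC : StIDC) (hARI : StARI)
    (hCHR : StCHR) (hLIM : StLIM) (hLF0 : StLF0) (hLF1 : StLF1) : StCNF := by
  intro D K _ _ h hsq h4 hD
  have : NeZero D := ⟨by omega⟩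
  obtain ⟨χ, hprim, hodd, hval⟩ := hCHR D hsq h4
  have hne : χ ≠ 1 := by
    rintro rfl
    have h1 : (1 : DirichletCharacter ℂ D) (-1) = -1 := hodd
    rw [MulChar.one_apply isUnit_one.neg] at h1
    norm_num at h1
  have hinv : χ⁻¹ = χ := by
    ext u
    rw [MulChar.inv_apply_eq_inv', show ((u : (ZMod D)ˣ) : ZMod D) = (((u : ZMod D).val : ℤ) : ZMod D) by
      push_cast; rw [ZMod.natCast_zmod_val], hval]
    rcases jac_trichotomy ((u : ZMod D).val : ℤ) D with h1 | h1 | h1 <;> rw [h1] <;> simp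
  have hcard : ∀ n : ℕ, 1 ≤ n → (Nat.card {I : Ideal (𝓞 K) // Ideal.absNorm I = n} : ℤ) =
      ∑ d ∈ n.divisors, jacobiSym (d : ℤ) D := by
    intro n hn
    rw [hIDC D K h n hn, hARI D h.e n hsq h.he hn]
  have hL1 := hLIM D K χ hne hval hcard
  have hF := hLF1 D χ (by omega) hprim hodd hinv
  have h0 := hLF0 D χ (by omega) hodd
  obtain ⟨p1, p2, p3, -⟩ := hPLC D K h (by omega)
  have hD0 : (0 : ℝ) < D := by exact_mod_cast (by omega : 0 < D)
  have hres : NumberField.dedekindZeta_residue K =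
      Real.pi * NumberField.classNumber K / Real.sqrt D := by
    rw [NumberField.dedekindZeta_residue_def, p1, p2, p3, hDSC D K h, hTOR D K h hD]
    have : |((-(D : ℤ) : ℤ) : ℝ)| = (D : ℝ) := by
      push_cast
      rw [abs_neg, abs_of_nonneg hD0.le]
    rw [this]
    push_cast
    field_simp
  have hsum : (∑ a ∈ Finset.range D, χ ((a : ℕ) : ZMod D) * (a : ℂ)) = ((TD D : ℤ) : ℂ) := by
    rw [TD, Int.cast_sum]
    refine Finset.sum_congr rfl fun a _ => ?_
    have h1 := hval (a : ℤ)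
    rw [Int.cast_natCast] at h1
    rw [h1]
    push_cast
    rfl
  rw [hsum] at h0
  rw [hL1, h0, Complex.norm_real, Real.norm_eq_abs, norm_div, norm_neg, Complex.norm_intCast,
    Complex.norm_natCast, hres, abs_of_nonneg (by positivity)] at hF
  have hsq0 : 0 < Real.sqrt D := Real.sqrt_pos.2 hD0
  have hfin : (D : ℝ) * NumberField.classNumber K = |((TD D : ℤ) : ℝ)| := by
    field_simp at hF
    linarith
  have : (((D : ℤ) * NumberField.classNumber K : ℤ) : ℝ) = ((|TD D| : ℤ) : ℝ) := by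
    push_cast
    exact hfin
  exact_mod_cast this

end Pool.Agent.Helper55.T3
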