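import Mathlib

/-!
# Project T3, module CN1: the value at `0` of the L-function of a periodic function

`Φ : ZMod N → ℂ`, `Φ 0 = 0`, `∑ Φ = 0`: `L(0, Φ) = -(1/N) ∑_(0<a<N) a Φ(a)`.
PROOF.  `F(t) = ∑_(n≥1) Φ(n) e^(-nt) = P(t)/(1 - e^(-Nt))`, `P(t) = ∑_(0≤a<N) Φ(a) e^(-at)`; `c` the right side; `G(t) = F(t) - c e^(-t)`
is `O(t)` at `0` and `O(e^(-t))` at infinity, so its Mellin transform is holomorphic for `Re s > -1`, and for `Re s > 1` it is
`Γ(s) (L(s, Φ) - c)`.  So `L(s, Φ) = c + M(s)/Γ(s)` for `Re s > -1`, and `1/Γ(0) = 0`.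
-/

set_option autoImplicit false

namespace Pool.Agent.Helper55.T3

open Complex Filter Topology Asymptotics Set MeasureTheory

variable {N : ℕ} [NeZero N]

private noncomputable def PP (Φ : ZMod N → ℂ) (t : ℝ) : ℂ :=
  ∑ j : ZMod N, Φ j * (Real.exp (-(j.val : ℝ) * t) : ℂ)

private noncomputable def cc (Φ : ZMod N → ℂ) : ℂ :=
  -(∑ j : ZMod N, (j.val : ℂ) * Φ j) / N

private noncomputable def GG (Φ : ZMod N → ℂ) (t : ℝ) : ℂ :=
  PP Φ t / (1 - (Real.exp (-(N : ℝ) * t) : ℂ)) - cc Φ * (Real.exp (-t) : ℂ)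

private theorem den_pos {t : ℝ} (ht : 0 < t) : 0 < 1 - Real.exp (-(N : ℝ) * t) := by
  have hN : (0 : ℝ) < N := by exact_mod_cast NeZero.pos N
  have : Real.exp (-(N : ℝ) * t) < 1 := by
    rw [Real.exp_lt_one_iff]
    nlinarith [mul_pos hN ht]
  linarith

private theorem den_ne {t : ℝ} (ht : 0 < t) : (1 : ℂ) - (Real.exp (-(N : ℝ) * t) : ℂ) ≠ 0 := by
  have h := den_pos (N := N) ht
  have h2 : ((1 - Real.exp (-(N : ℝ) * t) : ℝ) : ℂ) ≠ 0 := by exact_mod_cast h.ne'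
  simpa using h2

/-- the Dirichlet coefficients -/
private noncomputable def aa (Φ : ZMod N → ℂ) (n : ℕ) : ℂ := Φ (n : ZMod N) - if n = 1 then cc Φ else 0

private theorem summ (Φ : ZMod N → ℂ) {t : ℝ} (ht : 0 < t) :
    Summable (fun n : ℕ => Φ (n : ZMod N) * (Real.exp (-(n : ℝ) * t) : ℂ)) := by
  obtain ⟨C, hC⟩ : ∃ C : ℝ, ∀ j, ‖Φ j‖ ≤ C := by
    obtain ⟨C, hC⟩ := (Set.finite_range (fun j => ‖Φ j‖)).bddAbove
    exact ⟨C, fun j => hC ⟨j, rfl⟩⟩
  have hg : Summable (fun n : ℕ => C * (Real.exp (-t)) ^ n) := by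
    refine (summable_geometric_of_lt_one (Real.exp_pos _).le ?_).mul_left C
    rw [Real.exp_lt_one_iff]; linarith
  refine Summable.of_norm_bounded hg ?_
  intro n
  rw [norm_mul, ← Real.exp_nat_mul]
  have h1 : ‖((Real.exp (-(n : ℝ) * t) : ℝ) : ℂ)‖ = Real.exp (n * -t) := by
    rw [Complex.norm_real, Real.norm_eq_abs, abs_of_pos (Real.exp_pos _)]
    congr 1; ring
  rw [h1]
  exact mul_le_mul_of_nonneg_right (hC _) (Real.exp_pos _).le

private theorem hasF (Φ : ZMod N → ℂ) {t : ℝ} (ht : 0 < t) :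
    HasSum (fun n : ℕ => Φ (n : ZMod N) * (Real.exp (-(n : ℝ) * t) : ℂ))
      (PP Φ t / (1 - (Real.exp (-(N : ℝ) * t) : ℂ))) := by
  have hs := summ Φ ht
  have h := Nat.sumByResidueClasses hs N
  have h2 : ∑' n : ℕ, Φ (n : ZMod N) * (Real.exp (-(n : ℝ) * t) : ℂ) =
      PP Φ t / (1 - (Real.exp (-(N : ℝ) * t) : ℂ)) := by
    rw [h, PP, Finset.sum_div]
    refine Finset.sum_congr rfl fun j _ => ?_
    have h3 : ∀ m : ℕ, Φ ((j.val + N * m : ℕ) : ZMod N) *
        (Real.exp (-((j.val + N * m : ℕ) : ℝ) * t) : ℂ) =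
        Φ j * (Real.exp (-(j.val : ℝ) * t) : ℂ) * ((Real.exp (-(N : ℝ) * t) : ℂ)) ^ m := by
      intro m
      have h4 : ((j.val + N * m : ℕ) : ZMod N) = j := by
        push_cast
        rw [ZMod.natCast_self, zero_mul, add_zero, ZMod.natCast_zmod_val]
      rw [h4, mul_assoc]
      congr 1
      rw [← Complex.ofReal_pow, ← Complex.ofReal_mul, ← Real.exp_nat_mul, ← Real.exp_add]
      congr 2
      push_cast
      ring
    rw [tsum_congr h3, tsum_mul_left, tsum_geometric_of_norm_lt_one, div_eq_mul_inv]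
    rw [Complex.norm_real, Real.norm_eq_abs, abs_of_pos (Real.exp_pos _)]
    linarith [den_pos (N := N) ht]
  rw [← h2]
  exact hs.hasSum

private theorem hasG (Φ : ZMod N → ℂ) {t : ℝ} (ht : 0 < t) :
    HasSum (fun n : ℕ => aa Φ n * (Real.exp (-(n : ℝ) * t) : ℂ)) (GG Φ t) := by
  have h1 := hasF Φ ht
  have h2 : HasSum (fun n : ℕ => (if n = 1 then cc Φ else 0) * (Real.exp (-(n : ℝ) * t) : ℂ))
      (cc Φ * (Real.exp (-t) : ℂ)) := by
    have h := hasSum_single (f := fun n : ℕ => (if n = 1 then cc Φ else 0) *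
      (Real.exp (-(n : ℝ) * t) : ℂ)) 1 (fun b hb => by simp [hb])
    simpa using h
  have h3 := h1.sub h2
  have h4 : (fun n : ℕ => aa Φ n * (Real.exp (-(n : ℝ) * t) : ℂ)) = fun n : ℕ =>
      Φ (n : ZMod N) * (Real.exp (-(n : ℝ) * t) : ℂ) -
        (if n = 1 then cc Φ else 0) * (Real.exp (-(n : ℝ) * t) : ℂ) := by
    funext n; rw [aa, sub_mul]
  rw [h4]
  exact h3

private theorem aa_zero (Φ : ZMod N → ℂ) (h0 : Φ 0 = 0) : aa Φ 0 = 0 := by
  simp [aa, h0]

private theorem contG (Φ : ZMod N → ℂ) : ContinuousOn (GG Φ) (Ioi 0) := by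
  unfold GG PP
  refine ContinuousOn.sub (ContinuousOn.div ?_ ?_ ?_) ?_
  · fun_prop
  · fun_prop
  · intro t ht; exact den_ne ht
  · fun_prop

private theorem topG (Φ : ZMod N → ℂ) (h0 : Φ 0 = 0) :
    GG Φ =O[atTop] fun t => Real.exp (-1 * t) := by
  set C := ∑ j : ZMod N, ‖Φ j‖ with hC
  set δ := 1 - Real.exp (-(N : ℝ) * 1) with hδ
  have hδ0 : 0 < δ := den_pos (N := N) one_pos
  refine IsBigO.of_bound (C / δ + ‖cc Φ‖) ?_
  filter_upwards [eventually_ge_atTop (1 : ℝ)] with t ht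
  have ht0 : 0 < t := by linarith
  have hP : ‖PP Φ t‖ ≤ C * Real.exp (-t) := by
    rw [PP, hC, Finset.sum_mul]
    refine (norm_sum_le _ _).trans (Finset.sum_le_sum fun j _ => ?_)
    by_cases hj : j = 0
    · subst hj; simp [h0]
    · have hj1 : 1 ≤ j.val := Nat.one_le_iff_ne_zero.2 (fun h => hj ((ZMod.val_eq_zero j).1 h))
      rw [norm_mul, Complex.norm_real, Real.norm_eq_abs, abs_of_pos (Real.exp_pos _)]
      refine mul_le_mul_of_nonneg_left (Real.exp_le_exp.2 ?_) (norm_nonneg _)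
      have : (1 : ℝ) ≤ (j.val : ℝ) := by exact_mod_cast hj1
      nlinarith
  have hD : δ ≤ ‖(1 : ℂ) - (Real.exp (-(N : ℝ) * t) : ℂ)‖ := by
    have h1 : (1 : ℂ) - (Real.exp (-(N : ℝ) * t) : ℂ) = ((1 - Real.exp (-(N : ℝ) * t) : ℝ) : ℂ) := by
      push_cast; ring
    rw [h1, Complex.norm_real, Real.norm_eq_abs, abs_of_pos (den_pos ht0), hδ]
    have h2 : Real.exp (-(N : ℝ) * t) ≤ Real.exp (-(N : ℝ) * 1) := by
      refine Real.exp_le_exp.2 ?_
      have hN : (0 : ℝ) ≤ N := Nat.cast_nonneg _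
      nlinarith [mul_le_mul_of_nonneg_left ht hN]
    linarith
  rw [GG]
  refine (norm_sub_le _ _).trans ?_
  rw [norm_div, norm_mul, Complex.norm_real, Real.norm_eq_abs, Real.norm_eq_abs,
    abs_of_pos (Real.exp_pos _), abs_of_pos (Real.exp_pos _), add_mul, neg_one_mul]
  refine add_le_add ?_ le_rfl
  calc ‖PP Φ t‖ / ‖(1 : ℂ) - (Real.exp (-(N : ℝ) * t) : ℂ)‖ ≤ (C * Real.exp (-t)) / δ :=
        div_le_div₀ ((norm_nonneg _).trans hP) hP hδ0 hD
    _ = C / δ * Real.exp (-t) := by ring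

/-- the remainder of the exponential series -/
private noncomputable def rr (x : ℝ) : ℝ := Real.exp (-x) - 1 + x

private theorem rr_le {x : ℝ} (h0 : 0 ≤ x) (h : x ≤ 1) : |rr x| ≤ x ^ 2 := by
  have h1 := Real.abs_exp_sub_one_sub_id_le (x := -x) (by rw [abs_neg, abs_of_nonneg h0]; exact h)
  rw [neg_sq] at h1
  have h2 : rr x = Real.exp (-x) - 1 - -x := by rw [rr]; ring
  rw [h2]; exact h1

private theorem botG (Φ : ZMod N → ℂ) (hs : ∑ j, Φ j = 0) :
    GG Φ =O[𝓝[>] 0] fun t => t ^ (-(-1 : ℝ)) := by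
  have hN : (0 : ℝ) < N := by exact_mod_cast NeZero.pos N
  set C := (∑ j : ZMod N, ‖Φ j‖ * (j.val : ℝ) ^ 2) + ‖cc Φ‖ * (1 + ((N : ℝ) + 1) ^ 2) with hC
  refine IsBigO.of_bound (2 * C) ?_
  have hev : Ioc (0 : ℝ) (1 / ((N : ℝ) + 1)) ∈ 𝓝[>] (0 : ℝ) := Ioc_mem_nhdsGT (by positivity)
  filter_upwards [hev] with t ht
  obtain ⟨ht0, ht1⟩ := ht
  have htN : (N + 1 : ℝ) * t ≤ 1 := by
    rw [le_div_iff₀ (by positivity)] at ht1
    linarith
  have ht2 : t ≤ 1 := by nlinarith [mul_pos hN ht0]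
  have hne := den_ne (N := N) ht0
  -- the numerator
  have hQ : GG Φ t = (∑ j : ZMod N, Φ j * ((rr ((j.val : ℝ) * t) : ℝ) : ℂ) -
      cc Φ * ((rr t : ℝ) - (rr (((N : ℝ) + 1) * t) : ℝ))) /
        (1 - (Real.exp (-(N : ℝ) * t) : ℂ)) := by
    rw [eq_div_iff hne, GG, sub_mul, div_mul_cancel₀ _ hne]
    have hP : PP Φ t = ∑ j : ZMod N, Φ j * ((rr ((j.val : ℝ) * t) : ℝ) : ℂ) + (N : ℂ) * cc Φ * t := by
      have hcc : (N : ℂ) * cc Φ = -(∑ j : ZMod N, (j.val : ℂ) * Φ j) := by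
        rw [cc, mul_div_cancel₀]
        exact_mod_cast NeZero.ne N
      rw [PP, hcc, neg_mul, Finset.sum_mul, ← sub_eq_add_neg, ← Finset.sum_sub_distrib]
      have h1 : ∀ j : ZMod N, Φ j * (Real.exp (-(j.val : ℝ) * t) : ℂ) =
          (Φ j * ((rr ((j.val : ℝ) * t) : ℝ) : ℂ) - (j.val : ℂ) * Φ j * t) + Φ j := by
        intro j
        rw [rr, neg_mul]
        push_cast
        ring
      rw [Finset.sum_congr rfl fun j _ => h1 j, Finset.sum_add_distrib, hs, add_zero]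
    have hE : (Real.exp (-t) : ℂ) * (1 - (Real.exp (-(N : ℝ) * t) : ℂ)) =
        (rr t : ℝ) - (rr (((N : ℝ) + 1) * t) : ℝ) + N * t := by
      have h1 : Real.exp (-t) * (1 - Real.exp (-(N : ℝ) * t)) =
          rr t - rr (((N : ℝ) + 1) * t) + N * t := by
        rw [mul_sub, mul_one, ← Real.exp_add, rr, rr]
        have : -t + -(N : ℝ) * t = -(((N : ℝ) + 1) * t) := by ring
        rw [this]
        ring
      exact_mod_cast h1
    rw [hP, mul_assoc (cc Φ), hE]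
    ring
  have hD : t / 2 ≤ ‖(1 : ℂ) - (Real.exp (-(N : ℝ) * t) : ℂ)‖ := by
    have h1 : (1 : ℂ) - (Real.exp (-(N : ℝ) * t) : ℂ) = ((1 - Real.exp (-(N : ℝ) * t) : ℝ) : ℂ) := by
      push_cast; ring
    rw [h1, Complex.norm_real, Real.norm_eq_abs, abs_of_pos (den_pos ht0)]
    have h2 : Real.exp (-(N : ℝ) * t) ≤ Real.exp (-t) := by
      refine Real.exp_le_exp.2 ?_
      have : (1 : ℝ) ≤ N := by exact_mod_cast NeZero.pos N
      nlinarith
    have h3 := rr_le ht0.le ht2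
    have h4 := le_abs_self (rr t)
    have h5 : t ^ 2 ≤ t / 2 := by
      have : (1 : ℝ) ≤ N := by exact_mod_cast NeZero.pos N
      nlinarith
    rw [rr] at h3 h4
    linarith
  have hnum : ‖∑ j : ZMod N, Φ j * ((rr ((j.val : ℝ) * t) : ℝ) : ℂ) -
      cc Φ * ((rr t : ℝ) - (rr (((N : ℝ) + 1) * t) : ℝ))‖ ≤ C * t ^ 2 := by
    have e1 : C * t ^ 2 = (∑ j : ZMod N, ‖Φ j‖ * (j.val : ℝ) ^ 2) * t ^ 2 +
        ‖cc Φ‖ * (1 + ((N : ℝ) + 1) ^ 2) * t ^ 2 := by rw [hC]; ring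
    refine (norm_sub_le _ _).trans ?_
    rw [e1]
    refine add_le_add ?_ ?_
    · rw [Finset.sum_mul]
      refine (norm_sum_le _ _).trans (Finset.sum_le_sum fun j _ => ?_)
      rw [norm_mul, Complex.norm_real, Real.norm_eq_abs, mul_assoc]
      refine mul_le_mul_of_nonneg_left ?_ (norm_nonneg _)
      have hj : (j.val : ℝ) ≤ N := by exact_mod_cast (ZMod.val_lt j).le
      have h1 := rr_le (x := (j.val : ℝ) * t) (by positivity) (by nlinarith)
      calc |rr ((j.val : ℝ) * t)| ≤ ((j.val : ℝ) * t) ^ 2 := h1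
        _ = (j.val : ℝ) ^ 2 * t ^ 2 := by ring
    · rw [norm_mul, mul_assoc]
      refine mul_le_mul_of_nonneg_left ?_ (norm_nonneg _)
      refine (norm_sub_le _ _).trans ?_
      rw [Complex.norm_real, Complex.norm_real, Real.norm_eq_abs, Real.norm_eq_abs]
      have h1 := rr_le ht0.le ht2
      have h2 := rr_le (x := ((N : ℝ) + 1) * t) (by positivity) htN
      calc |rr t| + |rr (((N : ℝ) + 1) * t)| ≤ t ^ 2 + (((N : ℝ) + 1) * t) ^ 2 := add_le_add h1 h2
        _ = (1 + ((N : ℝ) + 1) ^ 2) * t ^ 2 := by ring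
  have hC0 : 0 ≤ C := by positivity
  rw [hQ, norm_div, neg_neg, Real.rpow_one, Real.norm_eq_abs, abs_of_pos ht0]
  calc _ ≤ (C * t ^ 2) / (t / 2) := div_le_div₀ (by positivity) hnum (by positivity) hD
    _ = 2 * C * t := by field_simp

private theorem mellinG (Φ : ZMod N → ℂ) (h0 : Φ 0 = 0) {s : ℂ} (hs : 1 < s.re) :
    mellin (GG Φ) s = Gamma s * (ZMod.LFunction Φ s - cc Φ) := by
  obtain ⟨C, hC⟩ : ∃ C : ℝ, ∀ j, ‖Φ j‖ ≤ C := by
    obtain ⟨C, hC⟩ := (Set.finite_range (fun j => ‖Φ j‖)).bddAbove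
    exact ⟨C, fun j => hC ⟨j, rfl⟩⟩
  have hC0 : 0 ≤ C := (norm_nonneg _).trans (hC 0)
  have hb : ∀ n : ℕ, ‖aa Φ n‖ ≤ C + ‖cc Φ‖ := by
    intro n
    rw [aa]
    refine (norm_sub_le _ _).trans (add_le_add (hC _) ?_)
    split_ifs
    · exact le_rfl
    · simp
  have hsum : Summable fun n : ℕ => ‖aa Φ n‖ / (n : ℝ) ^ s.re := by
    refine Summable.of_nonneg_of_le (fun n => by positivity)
      (fun n => div_le_div_of_nonneg_right (hb n) (by positivity)) ?_
    have h1 := (Real.summable_one_div_nat_rpow (p := s.re)).2 hs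
    simpa [div_eq_mul_inv] using h1.mul_left (C + ‖cc Φ‖)
  have hm := hasSum_mellin (a := aa Φ) (p := fun n : ℕ => (n : ℝ)) (F := GG Φ) (s := s)
    (fun n => by
      rcases Nat.eq_zero_or_pos n with rfl | hn
      · exact Or.inl (aa_zero Φ h0)
      · exact Or.inr (by exact_mod_cast hn)) (by linarith)
    (fun t ht => hasG Φ ht) hsum
  have hL : HasSum (fun n : ℕ => Gamma s * aa Φ n / ((n : ℝ) : ℂ) ^ s)
      (Gamma s * (ZMod.LFunction Φ s - cc Φ)) := by
    rw [ZMod.LFunction_eq_LSeries Φ hs]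
    have h1 : HasSum (fun n : ℕ => LSeries.term (Φ ·) s n) (LSeries (Φ ·) s) :=
      (ZMod.LSeriesSummable_of_one_lt_re Φ hs).hasSum
    have h2 : HasSum (fun n : ℕ => if n = 1 then cc Φ else 0) (cc Φ) := by
      have h := hasSum_single (f := fun n : ℕ => if n = 1 then cc Φ else 0) 1
        (fun b hb => by simp [hb])
      simpa using h
    have h3 := (h1.sub h2).mul_left (Gamma s)
    have h4 : (fun n : ℕ => Gamma s * aa Φ n / ((n : ℝ) : ℂ) ^ s) = fun n : ℕ =>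
        Gamma s * (LSeries.term (Φ ·) s n - if n = 1 then cc Φ else 0) := by
      funext n
      rcases Nat.eq_zero_or_pos n with rfl | hn
      · simp [aa_zero Φ h0, LSeries.term]
      · rw [LSeries.term_of_ne_zero hn.ne', aa]
        by_cases h1 : n = 1
        · subst h1; simp
        · simp [h1, mul_div_assoc]
    rw [h4]
    exact h3
  exact hm.unique hL

/-- the L-function of a periodic function at `0` -/
theorem LFunction_zero (Φ : ZMod N → ℂ) (h0 : Φ 0 = 0) (hsum : ∑ j, Φ j = 0) :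
    ZMod.LFunction Φ 0 = -(∑ j : ZMod N, (j.val : ℂ) * Φ j) / N := by
  set U : Set ℂ := {s | -1 < s.re} with hU
  have hUo : IsOpen U := continuous_re.isOpen_preimage _ isOpen_Ioi
  have hUc : IsPreconnected U := (convex_halfSpace_re_gt (-1)).isPreconnected
  set g : ℂ → ℂ := fun s => cc Φ + mellin (GG Φ) s * (Gamma s)⁻¹ with hg
  have hf : AnalyticOnNhd ℂ (ZMod.LFunction Φ) U :=
    (ZMod.differentiable_LFunction_of_sum_zero hsum).differentiableOn.analyticOnNhd hUo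
  have hga : AnalyticOnNhd ℂ g U := by
    refine DifferentiableOn.analyticOnNhd (fun s hs => ?_) hUo
    refine DifferentiableAt.differentiableWithinAt ?_
    refine (differentiableAt_const _).add (DifferentiableAt.mul ?_ ?_)
    · exact mellin_differentiableAt_of_isBigO_rpow_exp (a := 1) (b := -1) one_pos
        ((contG Φ).locallyIntegrableOn measurableSet_Ioi) (topG Φ h0) (botG Φ hsum) hs
    · exact differentiable_one_div_Gamma s
  have hV : {s : ℂ | 1 < s.re} ∈ 𝓝 (2 : ℂ) :=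
    (continuous_re.isOpen_preimage _ isOpen_Ioi).mem_nhds (by simp)
  have h := hf.eqOn_of_preconnected_of_eventuallyEq hga hUc (z₀ := 2) (by simp [hU]; norm_num) ?_
    (show (0 : ℂ) ∈ U by simp [hU])
  · rw [h, hg]
    simp only [Gamma_zero, inv_zero, mul_zero, add_zero]
    rfl
  · filter_upwards [hV] with s hs
    have hs1 : 1 < s.re := hs
    rw [hg]
    simp only
    rw [mellinG Φ h0 hs1, mul_comm (Gamma s), mul_assoc, mul_inv_cancel₀, mul_one]
    · ring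
    · exact Gamma_ne_zero_of_re_pos (by linarith)

end Pool.Agent.Helper55.T3
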