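import Pool.Agent.Helper28.T3.StA
import Pool.Agent.Helper55.T3.CN1

set_option autoImplicit false

namespace Pool.Agent.Helper55.T3

open Pool.Agent.Helper28.T3
open Complex

theorem hLF0 : StLF0 := by
  intro D _ χ hD hodd
  have h0 : χ 0 = 0 := χ.map_zero' (by omega)
  have hne : χ ≠ 1 := by
    rintro rfl
    have h1 : (1 : DirichletCharacter ℂ D) (-1) = -1 := hodd
    rw [MulChar.one_apply isUnit_one.neg] at h1
    norm_num at h1
  have hs : ∑ j, χ j = 0 := χ.sum_eq_zero_of_ne_one hne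
  have h := LFunction_zero (fun j => χ j) h0 hs
  rw [DirichletCharacter.LFunction]
  rw [h]
  congr 2
  refine (Finset.sum_nbij' (fun a : ℕ => (a : ZMod D)) ZMod.val ?_ ?_ ?_ ?_ ?_).symm
  · intro a _; exact Finset.mem_univ _
  · intro j _; exact Finset.mem_range.2 (ZMod.val_lt j)
  · intro a ha; exact ZMod.val_cast_of_lt (Finset.mem_range.1 ha)
  · intro j _; exact ZMod.natCast_zmod_val j
  · intro a ha
    rw [ZMod.val_cast_of_lt (Finset.mem_range.1 ha), mul_comm]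

theorem hLF1 : StLF1 := by
  intro D _ χ hD hprim hodd hinv
  have hne : χ ≠ 1 := by
    rintro rfl
    have h1 : (1 : DirichletCharacter ℂ D) (-1) = -1 := hodd
    rw [MulChar.one_apply isUnit_one.neg] at h1
    norm_num at h1
  have hD0 : (0 : ℝ) < D := by exact_mod_cast (by omega : 0 < D)
  have hL1 : χ.LFunction 1 ≠ 0 := DirichletCharacter.LFunction_apply_one_ne_zero hne
  have e1 := χ.LFunction_eq_completed_div_gammaFactor 1 (Or.inl one_ne_zero)
  have e0 := χ.LFunction_eq_completed_div_gammaFactor 0 (Or.inr (by omega))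
  rw [hodd.gammaFactor_def] at e1 e0
  have g1 : Gammaℝ (1 + 1) = 1 / (Real.pi : ℂ) := by
    rw [Gammaℝ_def]
    norm_num [Complex.cpow_neg_one]
  have g0 : Gammaℝ (0 + 1) = 1 := by rw [zero_add, Gammaℝ_one]
  rw [g1] at e1
  rw [g0, div_one] at e0
  have hpi : (Real.pi : ℂ) ≠ 0 := by exact_mod_cast Real.pi_ne_zero
  have e1' : χ.completedLFunction 1 = χ.LFunction 1 / Real.pi := by
    rw [e1]; field_simp
  have f0 := hprim.completedLFunction_one_sub 0
  have f1 := hprim.completedLFunction_one_sub 1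
  rw [hinv] at f0 f1
  rw [sub_zero, e1', ← e0] at f0
  rw [sub_self, e1', ← e0] at f1
  set w := χ.rootNumber
  set L1 := χ.LFunction 1
  set L0 := χ.LFunction 0
  have n0 : ‖L1‖ / Real.pi = (1 / Real.sqrt D) * ‖w‖ * ‖L0‖ := by
    have h := congrArg norm f0
    rw [norm_div, norm_mul, norm_mul, Complex.norm_real, Real.norm_eq_abs,
      abs_of_pos Real.pi_pos] at h
    rw [h]
    congr 2
    rw [Complex.norm_natCast_cpow_of_pos (by omega)]
    rw [show ((0 : ℂ) - 1 / 2).re = -(1 / 2 : ℝ) by norm_num, Real.rpow_neg hD0.le,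
      ← Real.sqrt_eq_rpow, one_div]
  have n1 : ‖L0‖ = Real.sqrt D * ‖w‖ * (‖L1‖ / Real.pi) := by
    have h := congrArg norm f1
    rw [norm_mul, norm_mul, norm_div, Complex.norm_real, Real.norm_eq_abs,
      abs_of_pos Real.pi_pos] at h
    rw [h]
    congr 2
    rw [Complex.norm_natCast_cpow_of_pos (by omega)]
    rw [show ((1 : ℂ) - 1 / 2).re = (1 / 2 : ℝ) by norm_num, ← Real.sqrt_eq_rpow]
  have hL1' : 0 < ‖L1‖ := norm_pos_iff.2 hL1
  have hsq : 0 < Real.sqrt D := Real.sqrt_pos.2 hD0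
  have hw : ‖w‖ = 1 := by
    have h : ‖L1‖ / Real.pi = ‖w‖ ^ 2 * (‖L1‖ / Real.pi) := by
      calc ‖L1‖ / Real.pi = (1 / Real.sqrt D) * ‖w‖ * ‖L0‖ := n0
        _ = (1 / Real.sqrt D) * ‖w‖ * (Real.sqrt D * ‖w‖ * (‖L1‖ / Real.pi)) := by rw [← n1]
        _ = (1 / Real.sqrt D * Real.sqrt D) * (‖w‖ ^ 2 * (‖L1‖ / Real.pi)) := by ring
        _ = ‖w‖ ^ 2 * (‖L1‖ / Real.pi) := by rw [one_div_mul_cancel hsq.ne', one_mul]
    have h2 : 0 < ‖L1‖ / Real.pi := div_pos hL1' Real.pi_pos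
    have h3 : ‖w‖ ^ 2 = 1 := by
      have := mul_right_cancel₀ h2.ne' (by rw [one_mul]; exact h : 1 * (‖L1‖ / Real.pi) = ‖w‖ ^ 2 * (‖L1‖ / Real.pi))
      exact this.symm
    nlinarith [norm_nonneg w]
  rw [hw, mul_one] at n1
  rw [n1]
  field_simp
  

end Pool.Agent.Helper55.T3
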